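import Mathlib
import Pool.Agent.H31.CF.Defs

/-!
# C3, Artin's cyclotomic trick: definitions and interface

All fields are number fields in `Type`.  `Dv F`, `Cop m`, `Pm m`, `nD F E`, `Nm F E m`, `Unr`,
`RamDvd`, `art F E χ` are those of `Pool.Agent.H31.CF.Defs`.
-/

open NumberField IsDedekindDomain Module
open Pool.Agent.H7.Artin Pool.Agent.H31.CF
open scoped nonZeroDivisors Pointwise

namespace H29.C3

section Defs

variable (F E : Type) [Field F] [NumberField F] [Field E] [NumberField E] [Algebra F E]
  [IsGalois F E] {A : Type} [CommGroup A]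

/-- `χ (Fr_v)` for a homomorphism `χ` from the Galois group to an abelian group. -/
noncomputable def fr (χ : Gal(E/F) →* A) (v : HeightOneSpectrum (𝓞 F)) : A :=
  χ (frob F E (primeAbove F E v))

/-- The norm group attached to a homomorphism `χ` from the Galois group to an abelian group:
the group generated by the divisors `ord (χ (Fr_v)) · v`, `v` prime to `m`. -/
noncomputable def Nch (χ : Gal(E/F) →* A) (m : Ideal (𝓞 F)) : AddSubgroup (Dv F) :=
  AddSubgroup.closure {D | ∃ v : HeightOneSpectrum (𝓞 F), ¬ m ≤ v.asIdeal ∧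
    D = Finsupp.single v (orderOf (fr F E χ v) : ℤ)}

end Defs

/-- The universal norm inequality (part C1), for all Galois extensions of number fields. -/
def UniNorm : Prop :=
  ∀ (K L : Type) [Field K] [NumberField K] [Field L] [NumberField L] [Algebra K L] [IsGalois K L]
    (M : Ideal (𝓞 K)), M ≠ ⊥ → RamDvd K L M →
    (Pm M ⊔ Nm K L M).relIndex (Cop M) ≠ 0 ∧ (Pm M ⊔ Nm K L M).relIndex (Cop M) ≤ finrank K L

/-- The values of `χ` at the Frobenius elements generate the image of `χ` (part C1): every
`χ g` is the value of the Artin map at a divisor prime to `M`. -/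
def FrobGen : Prop :=
  ∀ (K L : Type) [Field K] [NumberField K] [Field L] [NumberField L] [Algebra K L] [IsGalois K L]
    (M : Ideal (𝓞 K)), M ≠ ⊥ → ∀ (A : Type) [CommGroup A] (χ : Gal(L/K) →* A) (g : Gal(L/K)),
    ∃ D ∈ Cop M, art K L χ D = Additive.ofMul (χ g)

end H29.C3
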