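import Mathlib
import Pool.Agent.H29.C3.Defs

/-!
# C3/FrobAny: any Frobenius element computes `fr`

Proof.  `σ` and `frob F E w` are both arithmetic Frobenius elements at `w`
(`IsArithFrobAt.arithFrobAt`), so `σ * (frob F E w)⁻¹` is in the inertia group of `w`
(`IsArithFrobAt.mul_inv_mem_inertia`), which is trivial since `v` is unramified.  And `frob F E w`
is conjugate to `frob F E (primeAbove F E v)` (`isConj_arithFrobAt`; both primes lie over `v`),
so `χ` takes the same value.
-/

open NumberField IsDedekindDomain Module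
open Pool.Agent.H7.Artin Pool.Agent.H31.CF
open scoped nonZeroDivisors Pointwise

namespace H29.C3

variable (F E : Type) [Field F] [NumberField F] [Field E] [NumberField E] [Algebra F E]
  [IsGalois F E] {A : Type} [CommGroup A]

/-- `frob F E w` is an arithmetic Frobenius element. -/
theorem isArithFrob_frob (w : HeightOneSpectrum (𝓞 E)) :
    IsArithFrobAt (𝓞 F) (frob F E w) w.asIdeal := by
  exact IsArithFrobAt.arithFrobAt (𝓞 F) Gal(E/F) w.asIdeal

theorem fr_eq (χ : Gal(E/F) →* A) (v : HeightOneSpectrum (𝓞 F)) (hv : Unr F E v)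
    (w : HeightOneSpectrum (𝓞 E)) (hw : w.asIdeal.LiesOver v.asIdeal) (σ : Gal(E/F))
    (hσ : IsArithFrobAt (𝓞 F) σ w.asIdeal) : χ σ = fr F E χ v := by
  have h1 : σ * (frob F E w)⁻¹ ∈ inertiaGroup F E w :=
    hσ.mul_inv_mem_inertia (isArithFrob_frob F E w)
  rw [hv w hw, Subgroup.mem_bot, mul_inv_eq_one] at h1
  have h2 : IsConj (frob F E w) (frob F E (primeAbove F E v)) := by
    apply isConj_arithFrobAt
    rw [← hw.over, ← (primeAbove_liesOver F E v).over]
  rw [h1, fr]
  exact isConj_iff_eq.1 (χ.map_isConj h2)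

/-- Without unramifiedness, for the chosen Frobenius elements. -/
theorem fr_eq_frob (χ : Gal(E/F) →* A) (v : HeightOneSpectrum (𝓞 F))
    (w : HeightOneSpectrum (𝓞 E)) (hw : w.asIdeal.LiesOver v.asIdeal) :
    χ (frob F E w) = fr F E χ v := by
  have h2 : IsConj (frob F E w) (frob F E (primeAbove F E v)) := by
    apply isConj_arithFrobAt
    rw [← hw.over, ← (primeAbove_liesOver F E v).over]
  rw [fr]
  exact isConj_iff_eq.1 (χ.map_isConj h2)

end H29.C3
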