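import Mathlib
import Pool.Agent.H31.CF.Defs

/-!
# C3/IdvA: divisors of ideals

Proofs.  `fdv I v = FractionalIdeal.count F v I`.  `idv_mul`: `FractionalIdeal.count_mul`.
`idv_prime`: `FractionalIdeal.count_self`, `FractionalIdeal.count_maximal_coprime`.
`dv_int`: `spanSingleton = coeIdeal (span)`.  `idv_nonneg`: the count of an integral ideal is
nonnegative.  `idv_pos_iff`: the multiplicity of `v` in `I` is positive iff `v` divides `I`.
`idv_induction`: every nonzero ideal is a product of primes (`UniqueFactorizationMonoid`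
induction) and a prime factor is a `HeightOneSpectrum`.
-/

open NumberField IsDedekindDomain Module
open Pool.Agent.H7.Artin Pool.Agent.H31.CF
open scoped nonZeroDivisors Pointwise

namespace H29.C3

variable {F : Type} [Field F] [NumberField F]

private theorem idv_apply (I : Ideal (𝓞 F)) (v : HeightOneSpectrum (𝓞 F)) :
    idv I v = FractionalIdeal.count F v (I : FractionalIdeal (𝓞 F)⁰ F) := rfl

private theorem dv_apply (x : F) (v : HeightOneSpectrum (𝓞 F)) :
    dv x v = FractionalIdeal.count F v (FractionalIdeal.spanSingleton (𝓞 F)⁰ x) := rfl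

theorem idv_mul (I J : Ideal (𝓞 F)) (hI : I ≠ ⊥) (hJ : J ≠ ⊥) : idv (I * J) = idv I + idv J := by
  ext v
  rw [Finsupp.add_apply, idv_apply, idv_apply, idv_apply, FractionalIdeal.coeIdeal_mul]
  exact FractionalIdeal.count_mul F v (FractionalIdeal.coeIdeal_ne_zero.2 hI)
    (FractionalIdeal.coeIdeal_ne_zero.2 hJ)

theorem idv_one : idv (1 : Ideal (𝓞 F)) = 0 := by
  ext v
  rw [idv_apply, Ideal.one_eq_top, FractionalIdeal.coeIdeal_top, FractionalIdeal.count_one]
  rfl

theorem idv_pow (I : Ideal (𝓞 F)) (hI : I ≠ ⊥) (k : ℕ) : idv (I ^ k) = k • idv I := by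
  induction k with
  | zero => rw [pow_zero, idv_one, zero_smul]
  | succ k ih =>
    have h1 : I ^ k ≠ ⊥ := pow_ne_zero k hI
    rw [pow_succ, idv_mul _ _ h1 hI, ih, succ_nsmul]

theorem idv_prime (v : HeightOneSpectrum (𝓞 F)) : idv v.asIdeal = Finsupp.single v 1 := by
  classical
  ext w
  rw [idv_apply, Finsupp.single_apply]
  by_cases h : v = w
  · subst h
    rw [if_pos rfl]
    exact FractionalIdeal.count_self F v
  · rw [if_neg h]
    exact FractionalIdeal.count_maximal_coprime F w h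

theorem dv_int (a : 𝓞 F) : dv (a : F) = idv (Ideal.span {a}) := by
  unfold dv idv
  rw [FractionalIdeal.coeIdeal_span_singleton]

theorem dv_mul (a b : F) (ha : a ≠ 0) (hb : b ≠ 0) : dv (a * b) = dv a + dv b := by
  ext v
  rw [Finsupp.add_apply, dv_apply, dv_apply, dv_apply,
    ← FractionalIdeal.spanSingleton_mul_spanSingleton]
  exact FractionalIdeal.count_mul F v (FractionalIdeal.spanSingleton_ne_zero_iff.2 ha)
    (FractionalIdeal.spanSingleton_ne_zero_iff.2 hb)

theorem idv_pos_iff (I : Ideal (𝓞 F)) (hI : I ≠ ⊥) (v : HeightOneSpectrum (𝓞 F)) :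
    0 < idv I v ↔ I ≤ v.asIdeal := by
  classical
  rw [idv_apply, FractionalIdeal.count_coe F v hI, Nat.cast_pos, Nat.pos_iff_ne_zero,
    Associates.count_ne_zero_iff_dvd hI v.irreducible, Ideal.dvd_iff_le]

theorem idv_nonneg (I : Ideal (𝓞 F)) (v : HeightOneSpectrum (𝓞 F)) : 0 ≤ idv I v := by
  exact FractionalIdeal.count_coe_nonneg F v I

/-- Induction on nonzero ideals. -/
theorem ideal_induction {P : Ideal (𝓞 F) → Prop} (h1 : P 1)
    (h2 : ∀ (v : HeightOneSpectrum (𝓞 F)) (I : Ideal (𝓞 F)), I ≠ ⊥ → P I → P (v.asIdeal * I))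
    (I : Ideal (𝓞 F)) (hI : I ≠ ⊥) : P I := by
  have key : I ≠ 0 → P I := by
    refine UniqueFactorizationMonoid.induction_on_prime
      (P := fun J : Ideal (𝓞 F) => J ≠ 0 → P J) I ?_ ?_ ?_
    · intro h
      exact absurd rfl h
    · intro J hJ _
      rw [Ideal.isUnit_iff.1 hJ, ← Ideal.one_eq_top]
      exact h1
    · intro J p hJ hp ih _
      exact h2 ⟨p, Ideal.isPrime_of_prime hp, hp.ne_zero⟩ J hJ (ih hJ)
  exact key hI

theorem pm_le_cop (m : Ideal (𝓞 F)) : Pm m ≤ Cop m := by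
  refine (AddSubgroup.closure_le _).2 ?_
  rintro D ⟨α, h0, h1, _, rfl⟩ v hv
  rw [dv_int]
  have hne : Ideal.span {α} ≠ ⊥ := fun h => h0 (Ideal.span_singleton_eq_bot.1 h)
  have h2 : ¬ (0 < idv (Ideal.span {α}) v) := by
    rw [idv_pos_iff _ hne]
    intro h3
    have h4 : α ∈ v.asIdeal := h3 (Ideal.mem_span_singleton_self α)
    have h5 : (1 : 𝓞 F) ∈ v.asIdeal := by
      have h6 := v.asIdeal.sub_mem h4 (hv h1)
      rwa [sub_sub_cancel] at h6
    exact v.isPrime.ne_top ((Ideal.eq_top_iff_one _).2 h5)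
  have h3 := idv_nonneg (Ideal.span {α}) v
  omega

theorem pm_mono {m m' : Ideal (𝓞 F)} (h : m ≤ m') : Pm m ≤ Pm m' := by
  refine AddSubgroup.closure_mono ?_
  rintro D ⟨α, h0, h1, h2, h3⟩
  exact ⟨α, h0, h h1, h2, h3⟩

theorem cop_mono {m m' : Ideal (𝓞 F)} (h : m ≤ m') : Cop m ≤ Cop m' := by
  intro D hD v hv
  exact hD v (h.trans hv)

end H29.C3
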