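import Mathlib
import Pool.Agent.H29.C3.IdvA

/-!
# C3/NormD: the norm of divisors

`F ⊂ K` number fields (not necessarily Galois).

Proofs.  `nD_single`: `Ideal.relNorm_eq_pow_of_isMaximal`, `idv_pow`, `idv_prime`.
`nD_cop`: on the support of `D`, `w` does not contain `M.map`, so `v = w ∩ 𝓞 F` does not contain
`M`; sum over the support.  `nD_tower`: on `single`s, `Ideal.inertiaDeg_tower`.
`nD_idv`: `ideal_induction`, `map_mul` for `Ideal.relNorm`.
`nD_dv`: `nD_idv`, `Ideal.relNorm_singleton`, `Algebra.algebraMap_intNorm`.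
`exists_under`: `w ∩ 𝓞 F` is a nonzero prime.
-/

open NumberField IsDedekindDomain Module
open Pool.Agent.H7.Artin Pool.Agent.H31.CF
open scoped nonZeroDivisors Pointwise

namespace H29.C3

variable (F K : Type) [Field F] [NumberField F] [Field K] [NumberField K] [Algebra F K]

theorem exists_under (w : HeightOneSpectrum (𝓞 K)) :
    ∃ v : HeightOneSpectrum (𝓞 F), w.asIdeal.LiesOver v.asIdeal := by
  have hp : w.asIdeal.IsPrime := w.isPrime
  exact ⟨⟨w.asIdeal.under (𝓞 F), inferInstance, Ideal.IsIntegral.comap_ne_bot (𝓞 F) w.ne_bot⟩,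
    ⟨rfl⟩⟩

theorem exists_over (v : HeightOneSpectrum (𝓞 F)) :
    ∃ w : HeightOneSpectrum (𝓞 K), w.asIdeal.LiesOver v.asIdeal := by
  obtain ⟨⟨P, hP, hP'⟩⟩ := (v.asIdeal).nonempty_primesOver (S := 𝓞 K)
  refine ⟨⟨P, hP, ?_⟩, hP'⟩
  rintro rfl
  have h1 := hP'.over
  apply v.ne_bot
  rw [h1]
  exact Ideal.under_bot _ _

theorem nD_single (w : HeightOneSpectrum (𝓞 K)) (v : HeightOneSpectrum (𝓞 F))
    (hw : w.asIdeal.LiesOver v.asIdeal) (k : ℤ) :
    nD F K (Finsupp.single w k) = Finsupp.single v (k * (w.asIdeal.inertiaDeg (𝓞 F) : ℤ)) := by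
  have hwm : w.asIdeal.IsMaximal := w.isMaximal
  have hvm : v.asIdeal.IsMaximal := v.isMaximal
  unfold nD
  rw [Finsupp.liftAddHom_apply_single, zmultiplesHom_apply, Ideal.relNorm_eq_pow_of_isMaximal w.asIdeal v.asIdeal,
    idv_pow _ v.ne_bot, idv_prime]
  simp

theorem nD_cop (M : Ideal (𝓞 F)) (D : Dv K) (hD : D ∈ Cop (M.map (algebraMap (𝓞 F) (𝓞 K)))) :
    nD F K D ∈ Cop M := by
  rw [← Finsupp.sum_single D, Finsupp.sum, map_sum]
  refine AddSubgroup.sum_mem _ fun w hw => ?_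
  obtain ⟨v, hv⟩ := exists_under F K w
  rw [nD_single F K w v hv]
  intro u hu
  by_cases h : u = v
  · exfalso
    subst h
    have h1 : M.map (algebraMap (𝓞 F) (𝓞 K)) ≤ w.asIdeal := by
      rw [Ideal.map_le_iff_le_comap]
      have h2 := hv.over
      rw [Ideal.under_def] at h2
      rw [← h2]
      exact hu
    exact (Finsupp.mem_support_iff.1 hw) (hD w h1)
  · exact Finsupp.single_eq_of_ne h

theorem nD_idv (I : Ideal (𝓞 K)) (hI : I ≠ ⊥) : nD F K (idv I) = idv (Ideal.relNorm (𝓞 F) I) := by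
  refine ideal_induction (P := fun I => nD F K (idv I) = idv (Ideal.relNorm (𝓞 F) I)) ?_ ?_ I hI
  · rw [idv_one, map_zero, map_one, idv_one]
  · intro w J hJ h
    have h1 : Ideal.relNorm (𝓞 F) w.asIdeal ≠ ⊥ := by
      rw [Ne, Ideal.relNorm_eq_bot_iff]
      exact w.ne_bot
    have h2 : Ideal.relNorm (𝓞 F) J ≠ ⊥ := by
      rw [Ne, Ideal.relNorm_eq_bot_iff]
      exact hJ
    rw [idv_mul _ _ w.ne_bot hJ, map_add, map_mul, idv_mul _ _ h1 h2, h, idv_prime]
    congr 1
    unfold nD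
    rw [Finsupp.liftAddHom_apply_single, zmultiplesHom_apply, one_zsmul]

theorem nD_dv (a : 𝓞 K) (ha : a ≠ 0) :
    nD F K (dv (a : K)) = dv (Algebra.norm F (a : K)) := by
  have h0 : Ideal.span {a} ≠ ⊥ := by
    rw [Ne, Ideal.span_singleton_eq_bot]
    exact ha
  have h1 : Algebra.norm F (a : K) = ((Algebra.intNorm (𝓞 F) (𝓞 K) a : 𝓞 F) : F) :=
    (Algebra.algebraMap_intNorm (A := 𝓞 F) (K := F) (L := K) (B := 𝓞 K) a).symm
  rw [dv_int, nD_idv F K _ h0, Ideal.relNorm_singleton, h1, dv_int]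

theorem nD_tower (L : Type) [Field L] [NumberField L] [Algebra K L] [Algebra F L]
    [IsScalarTower F K L] (D : Dv L) : nD F K (nD K L D) = nD F L D := by
  have h : (nD F K).comp (nD K L) = nD F L := by
    refine Finsupp.addHom_ext fun u k => ?_
    obtain ⟨w, hw⟩ := exists_under K L u
    obtain ⟨v, hv⟩ := exists_under F K w
    have huv : u.asIdeal.LiesOver v.asIdeal := Ideal.LiesOver.trans u.asIdeal w.asIdeal v.asIdeal
    rw [AddMonoidHom.comp_apply, nD_single K L u w hw, nD_single F K w v hv, nD_single F L u v huv]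
    congr 1
    rw [Ideal.inertiaDeg_tower (R := 𝓞 F) w.asIdeal u.asIdeal]
    push_cast
    ring
  exact DFunLike.congr_fun h D

end H29.C3
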