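import Mathlib
import Pool.Agent.H29.C3.FrobAny
import Pool.Agent.H29.C3.NormD

/-!
# C3/FrOrd: the order of the Frobenius element is the residue degree

`E / F` Galois.  Proofs.  Let `v` be unramified, `w` a prime of `E` over `v`, `q = N v`,
`σ = frob F E w`, `k` a natural number.  `σ ^ k x ≡ x ^ (q ^ k) mod w` for all `x ∈ 𝓞 E`
(induction, `σ w = w`).  So `σ ^ k = 1` iff `σ ^ k` is in the inertia group at `w` iff
`x ^ (q ^ k) = x` for all `x` in the residue field of `w`, which has `q ^ f` elements, iff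
`f ∣ k` (a generator of its unit group has order `q ^ f - 1`, and
`q ^ f - 1 ∣ q ^ k - 1` iff `f ∣ k`).  Hence `orderOf σ = f`.  For `χ` injective
`orderOf (χ σ) = orderOf σ`; for the general `χ` only divisibility.

`nch_le_nm`: a generator of `Nch` is `ord (χ Fr_v) · v = f · v = nD (single w 1)`, and `w` is prime
to `m`.  `nm_le_nch`: a generator of `Nm` is `nD (single w k) = k f · v`, multiple of the generator
of `Nch` (for any `χ`).  `finrank_mem`: the order of `χ (Fr_v)` divides `[E : F]`, so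
`[E : F] · v ∈ Nch`.
-/

open NumberField IsDedekindDomain Module
open Pool.Agent.H7.Artin Pool.Agent.H31.CF
open scoped nonZeroDivisors Pointwise

namespace H29.C3

variable (F E : Type) [Field F] [NumberField F] [Field E] [NumberField E] [Algebra F E]
  [IsGalois F E] {A : Type} [CommGroup A]

private theorem pow_arith {w : HeightOneSpectrum (𝓞 E)} {σ : Gal(E/F)}
    (hσ : IsArithFrobAt (𝓞 F) σ w.asIdeal) (k : ℕ) (x : 𝓞 E) :
    Ideal.Quotient.mk w.asIdeal (σ ^ k • x)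
      = Ideal.Quotient.mk w.asIdeal x ^ (Nat.card (𝓞 F ⧸ w.asIdeal.under (𝓞 F)) ^ k) := by
  induction k with
  | zero => simp
  | succ k ih =>
    have h1 := hσ.mk_apply (σ ^ k • x)
    rw [pow_succ', mul_smul]
    have h2 : (MulSemiringAction.toAlgHom (𝓞 F) (𝓞 E) σ) (σ ^ k • x) = σ • (σ ^ k • x) := rfl
    rw [h2] at h1
    rw [h1, ih, ← pow_mul, ← pow_succ]

theorem orderOf_frob (v : HeightOneSpectrum (𝓞 F)) (hv : Unr F E v)
    (w : HeightOneSpectrum (𝓞 E)) (hw : w.asIdeal.LiesOver v.asIdeal) :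
    orderOf (frob F E w) = w.asIdeal.inertiaDeg (𝓞 F) := by
  have hvm : v.asIdeal.IsMaximal := v.isMaximal
  have hwm : w.asIdeal.IsMaximal := w.isMaximal
  let _ : Field (𝓞 F ⧸ v.asIdeal) := Ideal.Quotient.field v.asIdeal
  let _ : Field (𝓞 E ⧸ w.asIdeal) := Ideal.Quotient.field w.asIdeal
  have hfF : Finite (𝓞 F ⧸ v.asIdeal) := Ideal.finiteQuotientOfFreeOfNeBot _ v.ne_bot
  have hfE : Finite (𝓞 E ⧸ w.asIdeal) := Ideal.finiteQuotientOfFreeOfNeBot _ w.ne_bot
  let _ : Fintype (𝓞 F ⧸ v.asIdeal) := Fintype.ofFinite _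
  rw [Ideal.inertiaDeg_eq_of_isMaximal v.asIdeal w.asIdeal,
    ← FiniteField.orderOf_frobeniusAlgHom (𝓞 F ⧸ v.asIdeal) (𝓞 E ⧸ w.asIdeal),
    orderOf_eq_orderOf_iff]
  intro n
  have hI : inertiaGroup F E w = ⊥ := hv w hw
  have hmem : frob F E w ^ n = 1 ↔ frob F E w ^ n ∈ inertiaGroup F E w := by
    rw [hI, Subgroup.mem_bot]
  have hund : w.asIdeal.under (𝓞 F) = v.asIdeal := hw.over.symm
  have hcard : Nat.card (𝓞 F ⧸ w.asIdeal.under (𝓞 F)) = Fintype.card (𝓞 F ⧸ v.asIdeal) := by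
    rw [hund, Nat.card_eq_fintype_card]
  have hpw := fun x : 𝓞 E => pow_arith F E (isArithFrob_frob F E w) n x
  rw [hmem]
  have hfr : ∀ (n : ℕ) (z : 𝓞 E ⧸ w.asIdeal),
      ((FiniteField.frobeniusAlgHom (𝓞 F ⧸ v.asIdeal) (𝓞 E ⧸ w.asIdeal)) ^ n) z
        = z ^ (Fintype.card (𝓞 F ⧸ v.asIdeal) ^ n) := by
    intro n z
    induction n with
    | zero => simp
    | succ n ih => rw [pow_succ', AlgHom.mul_apply, ih, FiniteField.frobeniusAlgHom_apply,
        ← pow_mul, ← pow_succ]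
  constructor
  · intro h
    ext z
    obtain ⟨x, rfl⟩ := Ideal.Quotient.mk_surjective z
    rw [hfr]
    have h1 := hpw x
    rw [hcard] at h1
    rw [← h1]
    exact (Ideal.Quotient.eq).2 (h x)
  · intro h x
    have h1 := hpw x
    rw [hcard, ← hfr, h] at h1
    exact (Ideal.Quotient.eq).1 h1

theorem orderOf_fr (χ : Gal(E/F) →* A) (hχ : Function.Injective χ)
    (v : HeightOneSpectrum (𝓞 F)) (hv : Unr F E v)
    (w : HeightOneSpectrum (𝓞 E)) (hw : w.asIdeal.LiesOver v.asIdeal) :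
    orderOf (fr F E χ v) = w.asIdeal.inertiaDeg (𝓞 F) := by
  rw [← fr_eq_frob F E χ v w hw, orderOf_injective χ hχ, orderOf_frob F E v hv w hw]

omit [IsGalois F E] [NumberField F] [NumberField E] in
private theorem not_le_of_over {m : Ideal (𝓞 F)} {v : HeightOneSpectrum (𝓞 F)}
    {w : HeightOneSpectrum (𝓞 E)} (hw : w.asIdeal.LiesOver v.asIdeal) :
    m.map (algebraMap (𝓞 F) (𝓞 E)) ≤ w.asIdeal ↔ m ≤ v.asIdeal := by
  rw [Ideal.map_le_iff_le_comap, hw.over]

theorem nch_le_nm (χ : Gal(E/F) →* A) (hχ : Function.Injective χ) (m : Ideal (𝓞 F))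
    (hm : RamDvd F E m) : Nch F E χ m ≤ Nm F E m := by
  rw [Nch, AddSubgroup.closure_le]
  rintro D ⟨v, hv, rfl⟩
  obtain ⟨w, hw⟩ := exists_over F E v
  refine ⟨Finsupp.single w 1, ?_, ?_⟩
  · intro w' hw'
    refine Finsupp.single_eq_of_ne' ?_
    rintro rfl
    exact hv ((not_le_of_over F E hw).1 hw')
  · rw [nD_single F E w v hw, one_mul, orderOf_fr F E χ hχ v (hm v hv) w hw]

private theorem single_mem_nch (χ : Gal(E/F) →* A) (m : Ideal (𝓞 F))
    (v : HeightOneSpectrum (𝓞 F)) (hv : ¬ m ≤ v.asIdeal) (k : ℤ)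
    (hk : (orderOf (fr F E χ v) : ℤ) ∣ k) : Finsupp.single v k ∈ Nch F E χ m := by
  obtain ⟨j, rfl⟩ := hk
  have h1 : (Finsupp.single v ((orderOf (fr F E χ v) : ℤ) * j) : Dv F)
      = j • Finsupp.single v (orderOf (fr F E χ v) : ℤ) := by
    rw [Finsupp.smul_single, smul_eq_mul, mul_comm]
  have h2 : (Finsupp.single v (orderOf (fr F E χ v) : ℤ) : Dv F) ∈ Nch F E χ m := by
    unfold Nch
    exact AddSubgroup.subset_closure ⟨v, hv, rfl⟩
  rw [h1]
  exact AddSubgroup.zsmul_mem _ h2 j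

theorem nm_le_nch (χ : Gal(E/F) →* A) (m : Ideal (𝓞 F)) (hm : RamDvd F E m) :
    Nm F E m ≤ Nch F E χ m := by
  intro D' hD'
  obtain ⟨D, hD, rfl⟩ := AddSubgroup.mem_map.1 hD'
  rw [← Finsupp.sum_single D, Finsupp.sum, map_sum]
  refine AddSubgroup.sum_mem _ fun w hw => ?_
  obtain ⟨v, hv⟩ := exists_under F E w
  rw [nD_single F E w v hv]
  have hnm : ¬ m ≤ v.asIdeal := by
    intro h
    exact (Finsupp.mem_support_iff.1 hw) (hD w ((not_le_of_over F E hv).2 h))
  refine single_mem_nch F E χ m v hnm _ ?_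
  refine Dvd.dvd.mul_left ?_ _
  rw [← fr_eq_frob F E χ v w hv, ← orderOf_frob F E v (hm v hnm) w hv]
  exact_mod_cast orderOf_map_dvd χ _

theorem finrank_smul_mem (χ : Gal(E/F) →* A) (m : Ideal (𝓞 F)) (D : Dv F) (hD : D ∈ Cop m) :
    (finrank F E : ℤ) • D ∈ Nch F E χ m := by
  rw [← Finsupp.sum_single D, Finsupp.sum, Finset.smul_sum]
  refine AddSubgroup.sum_mem _ fun v hv => ?_
  have hnm : ¬ m ≤ v.asIdeal := fun h => (Finsupp.mem_support_iff.1 hv) (hD v h)
  rw [Finsupp.smul_single]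
  refine single_mem_nch F E χ m v hnm _ ?_
  rw [smul_eq_mul]
  refine Dvd.dvd.mul_right ?_ _
  have h1 : orderOf (fr F E χ v) ∣ finrank F E := by
    rw [← IsGalois.card_aut_eq_finrank]
    exact (orderOf_map_dvd χ _).trans (orderOf_dvd_natCard _)
  exact_mod_cast h1

end H29.C3
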