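import Mathlib
import Pool.Agent.H29.C3.Defs

/-!
# C3/ArtGen: first properties of the Artin map

Proofs.  `art_single` is unfolding.  `art_nch`: on a generator the value is
`ord (χ (Fr_v)) • χ (Fr_v) = 0`.  `exists_gal`: induction on `D` (`Finsupp.induction_linear`):
`0` gives `g = 1`, sums give products (the values are in an abelian group), `single v k` gives
`frob ^ k`.  `pm_le_cop`: if `α ≡ 1 mod m` and `m ≤ v` then `α ∉ v`, hence the multiplicity of `v`
in `(α)` is zero.  `ker_relIndex`: the restriction of `art` to `Cop m` has image `χ.range`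
(`FrobGen` and `exists_gal`), and kernel `ker ⊓ Cop m`; the first isomorphism theorem.
-/

open NumberField IsDedekindDomain Module
open Pool.Agent.H7.Artin Pool.Agent.H31.CF
open scoped nonZeroDivisors Pointwise

namespace H29.C3

variable (F E : Type) [Field F] [NumberField F] [Field E] [NumberField E] [Algebra F E]
  [IsGalois F E] {A : Type} [CommGroup A]

theorem art_single (χ : Gal(E/F) →* A) (v : HeightOneSpectrum (𝓞 F)) (k : ℤ) :
    art F E χ (Finsupp.single v k) = k • Additive.ofMul (fr F E χ v) := by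
  unfold art
  rw [Finsupp.liftAddHom_apply_single]
  rfl

theorem nch_le_ker (χ : Gal(E/F) →* A) (m : Ideal (𝓞 F)) : Nch F E χ m ≤ (art F E χ).ker := by
  refine (AddSubgroup.closure_le _).2 ?_
  rintro D ⟨v, _, rfl⟩
  change art F E χ _ = 0
  rw [art_single, natCast_zsmul, ← ofMul_pow, pow_orderOf_eq_one, ofMul_one]

private theorem single_mem (m : Ideal (𝓞 F)) (v : HeightOneSpectrum (𝓞 F))
    (hv : ¬ m ≤ v.asIdeal) (k : ℤ) : (Finsupp.single v k : Dv F) ∈ Cop m := by
  intro w hw
  have h1 : v ≠ w := by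
    rintro rfl
    exact hv hw
  exact Finsupp.single_eq_of_ne' h1

theorem nch_le_cop (χ : Gal(E/F) →* A) (m : Ideal (𝓞 F)) : Nch F E χ m ≤ Cop m := by
  refine (AddSubgroup.closure_le _).2 ?_
  rintro D ⟨v, hv, rfl⟩
  exact single_mem F m v hv _

omit [NumberField E] [IsGalois F E] [Algebra F E] [Field E] in
theorem single_mem_cop (m : Ideal (𝓞 F)) (v : HeightOneSpectrum (𝓞 F)) (hv : ¬ m ≤ v.asIdeal)
    (k : ℤ) : (Finsupp.single v k : Dv F) ∈ Cop m := by
  exact single_mem F m v hv k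

theorem exists_gal (D : Dv F) : ∃ g : Gal(E/F), ∀ (A : Type) [CommGroup A] (χ : Gal(E/F) →* A),
    art F E χ D = Additive.ofMul (χ g) := by
  induction D using Finsupp.induction_linear with
  | zero =>
    refine ⟨1, fun A _ χ => ?_⟩
    rw [map_zero, map_one, ofMul_one]
  | add a b ha hb =>
    obtain ⟨g, hg⟩ := ha
    obtain ⟨h, hh⟩ := hb
    refine ⟨g * h, fun A _ χ => ?_⟩
    rw [map_add, hg, hh, map_mul, ofMul_mul]
  | single v k =>
    refine ⟨frob F E (primeAbove F E v) ^ k, fun A _ χ => ?_⟩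
    rw [art_single, map_zpow, ofMul_zpow]
    rfl

theorem ker_relIndex (hS : FrobGen) (χ : Gal(E/F) →* A) (m : Ideal (𝓞 F)) (hm : m ≠ ⊥) :
    ((art F E χ).ker ⊓ Cop m).relIndex (Cop m) = Nat.card χ.range := by
  rw [AddSubgroup.inf_relIndex_right, AddSubgroup.relIndex, ← AddMonoidHom.ker_restrict]
  rw [AddSubgroup.index_ker]
  refine Nat.card_congr ?_
  refine Equiv.subtypeEquiv Additive.toMul ?_
  intro a
  constructor
  · rintro ⟨D, rfl⟩
    obtain ⟨g, hg⟩ := exists_gal F E (D : Dv F)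
    refine ⟨g, ?_⟩
    have h1 : ((art F E χ).domRestrict (Cop m)) D = art F E χ (D : Dv F) := rfl
    rw [h1, hg A χ]
    rfl
  · rintro ⟨g, hg⟩
    obtain ⟨D, hD, h1⟩ := hS F E m hm A χ g
    refine ⟨⟨D, hD⟩, ?_⟩
    have h2 : ((art F E χ).domRestrict (Cop m)) ⟨D, hD⟩ = art F E χ D := rfl
    rw [h2, h1, hg]
    rfl

end H29.C3
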