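import Mathlib
import Pool.Agent.H29.C3.FrobAny
import Pool.Agent.H29.C3.NormD

/-!
# C3/Restr: behaviour of the Artin map under restriction to a subextension

`F ⊂ E ⊂ L`, `E / F` and `L / F` Galois.

Proofs.  `isArithFrob_restr`: `σ x ≡ x ^ q mod W` for `x ∈ 𝓞 L`; for `x ∈ 𝓞 E` this is a congruence
mod `W ∩ 𝓞 E = w`, and `σ` restricted to `E` is `restrictNormalHom E σ`
(`AlgEquiv.restrictNormal_commutes`).
`fr_restr`: `isArithFrob_restr` and `fr_eq`.
`nch_le_nm`: for `v` prime to `m` (so unramified in `E`), and `χ` injective, the order of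
`χ (Fr_v)` is the residue degree `f` of `v` in `E` (the order of the Frobenius; by
`Ideal.card_stabilizer`-type formulas or: `Fr_w ^ k = 1` iff `x ^ (q ^ k) = x` on the residue field
`𝓞 E / w`, using that the inertia is trivial, iff `f ∣ k`), and
`f • v = nD F E (single w 1) ∈ Nm F E m`.
-/

open NumberField IsDedekindDomain Module
open Pool.Agent.H7.Artin Pool.Agent.H31.CF
open scoped nonZeroDivisors Pointwise

namespace H29.C3

variable (F E L : Type) [Field F] [NumberField F] [Field E] [NumberField E] [Field L]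
  [NumberField L] [Algebra F E] [Algebra E L] [Algebra F L] [IsScalarTower F E L]
  [IsGalois F E] [IsGalois F L] {A : Type} [CommGroup A]

theorem isArithFrob_restr (w : HeightOneSpectrum (𝓞 E)) (W : HeightOneSpectrum (𝓞 L))
    (hW : W.asIdeal.LiesOver w.asIdeal) (σ : Gal(L/F)) (hσ : IsArithFrobAt (𝓞 F) σ W.asIdeal) :
    IsArithFrobAt (𝓞 F) (AlgEquiv.restrictNormalHom E σ : Gal(E/F)) w.asIdeal := by
  intro x
  have h := hσ (algebraMap (𝓞 E) (𝓞 L) x)
  have hw : w.asIdeal = W.asIdeal.under (𝓞 E) := hW.over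
  have hu : w.asIdeal.under (𝓞 F) = W.asIdeal.under (𝓞 F) := by
    rw [hw, Ideal.under_under]
  have hc : (algebraMap (𝓞 E) (𝓞 L))
      ((MulSemiringAction.toAlgHom (𝓞 F) (𝓞 E) (AlgEquiv.restrictNormalHom E σ : Gal(E/F))) x) =
      (MulSemiringAction.toAlgHom (𝓞 F) (𝓞 L) σ) (algebraMap (𝓞 E) (𝓞 L) x) := by
    apply RingOfIntegers.ext
    exact AlgEquiv.restrictNormal_commutes σ E (x : E)
  rw [hu]
  have h2 : (algebraMap (𝓞 E) (𝓞 L))
      ((MulSemiringAction.toAlgHom (𝓞 F) (𝓞 E) (AlgEquiv.restrictNormalHom E σ : Gal(E/F))) x -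
        x ^ Nat.card (𝓞 F ⧸ W.asIdeal.under (𝓞 F))) ∈ W.asIdeal := by
    rw [map_sub, hc, map_pow]
    exact h
  rw [hw]
  exact h2

theorem fr_restr (χ : Gal(E/F) →* A) (v : HeightOneSpectrum (𝓞 F)) (hv : Unr F E v) :
    fr F L (χ.comp (AlgEquiv.restrictNormalHom E)) v = fr F E χ v := by
  have hWv := primeAbove_liesOver F L v
  obtain ⟨w, hw⟩ := exists_under E L (primeAbove F L v)
  have hwv : w.asIdeal.LiesOver v.asIdeal := by
    constructor
    have h1 : v.asIdeal = (primeAbove F L v).asIdeal.under (𝓞 F) := hWv.over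
    have h2 : w.asIdeal = (primeAbove F L v).asIdeal.under (𝓞 E) := hw.over
    rw [h1, h2, Ideal.under_under]
  have h := isArithFrob_restr F E L w (primeAbove F L v) hw (frob F L (primeAbove F L v))
    (isArithFrob_frob F L (primeAbove F L v))
  exact fr_eq F E χ v hv w hwv _ h

theorem art_restr (χ : Gal(E/F) →* A) (m : Ideal (𝓞 F)) (hm : RamDvd F E m) (D : Dv F)
    (hD : D ∈ Cop m) :
    art F L (χ.comp (AlgEquiv.restrictNormalHom E)) D = art F E χ D := by
  unfold art
  rw [Finsupp.liftAddHom_apply, Finsupp.liftAddHom_apply]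
  unfold Finsupp.sum
  refine Finset.sum_congr rfl fun v hv => ?_
  have hvm : ¬ m ≤ v.asIdeal := fun h => (Finsupp.mem_support_iff.1 hv) (hD v h)
  have h := fr_restr F E L χ v (hm v hvm)
  unfold fr at h
  beta_reduce
  rw [h]

theorem nch_restr (χ : Gal(E/F) →* A) (m : Ideal (𝓞 F)) (hm : RamDvd F E m) :
    Nch F L (χ.comp (AlgEquiv.restrictNormalHom E)) m = Nch F E χ m := by
  unfold Nch
  congr 1
  ext D
  constructor
  · rintro ⟨v, hv, rfl⟩
    exact ⟨v, hv, by rw [fr_restr F E L χ v (hm v hv)]⟩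
  · rintro ⟨v, hv, rfl⟩
    exact ⟨v, hv, by rw [fr_restr F E L χ v (hm v hv)]⟩

end H29.C3
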