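import Mathlib
import Pool.Agent.H29.C3.ArtGen
import Pool.Agent.H29.C3.Restr
import Pool.Agent.H29.C3.FrOrd

/-!
# C3/UniCh: the universal norm inequality for the norm group of a character

Proof.  Let `E' = IntermediateField.fixedField χ.ker`, Galois over `K` of degree
`Nat.card χ.range` (`χ.ker` is normal), `χ' : Gal(E'/K) →* A` the injective homomorphism with
`χ = χ' ∘ restrictNormalHom E'`.  Primes prime to `M` are unramified in `E'` (the inertia group at
`W` in `Gal(L/K)` surjects onto the inertia group at `W ∩ E'`, or: apply the following weaker fact: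
an element `τ` of the inertia group of `E'` at `w`; lift it to `g ∈ Gal(L/K)`, adjust to stabilize
`W`, ... see Mathlib `Ideal.inertia` surjectivity; or use ramification indices).
Then `Nm K E' M ≤ Nch K E' χ' M = Nch K L χ M` (`nm_le_nch`, `nch_restr`), and `UniNorm` for
`E' / K`; `AddSubgroup.relIndex` is antitone in the first variable for finite nonzero index
(`AddSubgroup.relIndex_le_of_le_left`-type lemma).
-/

open NumberField IsDedekindDomain Module
open Pool.Agent.H7.Artin Pool.Agent.H31.CF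
open scoped nonZeroDivisors Pointwise

namespace H29.C3

theorem unr_bot (F E L : Type) [Field F] [NumberField F] [Field E] [NumberField E] [Field L]
    [NumberField L] [Algebra F E] [Algebra E L] [Algebra F L] [IsScalarTower F E L]
    [IsGalois F E] [IsGalois F L] (v : HeightOneSpectrum (𝓞 F)) (hv : Unr F L v) :
    Unr F E v := by
  intro w hw
  haveI : IsGalois E L := IsGalois.tower_top_of_isGalois F E L
  obtain ⟨W, hW⟩ := exists_primeAbove E L w
  have hWv : W.asIdeal.LiesOver v.asIdeal := Ideal.LiesOver.trans W.asIdeal w.asIdeal v.asIdeal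
  have h1 := hv W hWv
  have hc1 : Nat.card (inertiaGroup F L W) = v.asIdeal.ramificationIdxIn (𝓞 L) :=
    Ideal.card_inertia_eq_ramificationIdxIn (G := Gal(L/F)) v.asIdeal W.asIdeal
  have hc2 : Nat.card (inertiaGroup F E w) = v.asIdeal.ramificationIdxIn (𝓞 E) :=
    Ideal.card_inertia_eq_ramificationIdxIn (G := Gal(E/F)) v.asIdeal w.asIdeal
  haveI : Nonempty (w.asIdeal.primesOver (𝓞 L)) := ⟨⟨W.asIdeal, W.isPrime, hW⟩⟩
  have hm : v.asIdeal.ramificationIdxIn (𝓞 E) * w.asIdeal.ramificationIdxIn (𝓞 L)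
      = v.asIdeal.ramificationIdxIn (𝓞 L) :=
    Ideal.ramificationIdxIn_mul_ramificationIdxIn w.asIdeal Gal(E/F) (𝓞 L) Gal(L/F) Gal(L/E)
  rw [← hc1, h1, Subgroup.card_bot, ← hc2] at hm
  exact Subgroup.card_eq_one.1 (Nat.eq_one_of_mul_eq_one_right hm)

variable (K L : Type) [Field K] [NumberField K] [Field L] [NumberField L] [Algebra K L]
  [IsGalois K L] {A : Type} [CommGroup A]

theorem uni_ch (hU : UniNorm) (χ : Gal(L/K) →* A) (M : Ideal (𝓞 K)) (hM0 : M ≠ ⊥)
    (hM : RamDvd K L M) : (Pm M ⊔ Nch K L χ M).relIndex (Cop M) ≠ 0 ∧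
      (Pm M ⊔ Nch K L χ M).relIndex (Cop M) ≤ Nat.card χ.range := by
  classical
  let E' : IntermediateField K L := IntermediateField.fixedField χ.ker
  haveI hgal : IsGalois K E' := IsGalois.of_fixedField_normal_subgroup χ.ker
  have hM' : RamDvd K E' M := fun v hv => unr_bot K E' L v (hM v hv)
  let e : Gal(L/K) ⧸ χ.ker ≃* Gal(E'/K) := IsGalois.normalAutEquivQuotient χ.ker
  let χ' : Gal(E'/K) →* A := (QuotientGroup.kerLift χ).comp e.symm.toMonoidHom
  have hχ : χ'.comp (AlgEquiv.restrictNormalHom E') = χ := by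
    ext g
    have h1 : (AlgEquiv.restrictNormalHom E' g : Gal(E'/K)) = e (g : Gal(L/K) ⧸ χ.ker) := by
      exact (IsGalois.normalAutEquivQuotient_apply χ.ker g).symm
    rw [MonoidHom.comp_apply, h1]
    change QuotientGroup.kerLift χ (e.symm (e (g : Gal(L/K) ⧸ χ.ker))) = χ g
    rw [MulEquiv.symm_apply_apply]
    exact QuotientGroup.kerLift_mk χ g
  have hle : Nm K E' M ≤ Nch K L χ M := by
    have h1 := nm_le_nch K E' χ' M hM'
    rw [← nch_restr K E' L χ' M hM', hχ] at h1
    exact h1
  obtain ⟨h0, h2⟩ := hU K E' M hM0 hM'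
  have hdvd : (Pm M ⊔ Nch K L χ M).relIndex (Cop M) ∣ (Pm M ⊔ Nm K E' M).relIndex (Cop M) :=
    AddSubgroup.relIndex_dvd_of_le_left _ (sup_le_sup_left hle _)
  have hcard : finrank K E' = Nat.card χ.range := by
    rw [← IsGalois.card_aut_eq_finrank K E', ← Nat.card_congr e.toEquiv]
    exact Nat.card_congr (QuotientGroup.quotientKerEquivRange χ).toEquiv
  refine ⟨fun h => h0 ?_, ?_⟩
  · rw [h] at hdvd
    exact Nat.eq_zero_of_zero_dvd hdvd
  · rw [← hcard]
    exact (Nat.le_of_dvd (Nat.pos_of_ne_zero h0) hdvd).trans h2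

end H29.C3
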